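import Pool.Agent.N110.IM.Img
import Pool.Agent.N110.IM.Defs
import Pool.Agent.N110.SE.Fin
import Pool.Agent.N110.CanS
import Pool.Agent.N110.RK.Stat
import Pool.Agent.N110.NV.Fin
import Pool.Agent.R887.Exc

/-!
Pairs which are dominated by a pair with commuting dominant rational self-maps: a bound for the
numerical dimension, and the numerical dimension zero if the growth rank is maximal.
-/

set_option autoImplicit false

open FF Pool.Agent.W602.GT Pool.Agent.Y172 Pool.Agent.R887 Pool.Agent.N110

/-- Let `X'` be a normal projective variety of dimension `n ≥ 1`, with generic point `y'`, and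
`Δ' ≥ 0` a `ℚ`-divisor on `X'` such that `K_X' + Δ'` is nef (for instance, let `X'` be a minimal
variety and `Δ' = 0`). Let `ℕ ^ r` act on `X'` by dominant rational self-maps `f_a` (commuting
dominant rational self-maps `f_1, ..., f_r`, invertible or not), given by the endomorphisms
`φ a = f_a^*` of the function field. Suppose that `f_a^* (K_X' + Δ')` is at most `K_X' + Δ'` over the
prime divisors of `X'`, or that `Δ' = 0` and `X'` has canonical singularities (no condition on the
maps then). Let `s ≥ 1` be at most the growth rank: for `u` in `ℤ ^ r` with positive part `a` and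
negative part `b` the degree `D(u)` of the correspondence `f_a ∘ f_b⁻¹` is
`f_a^* H · (f_b^* H) ^ (n - 1) / deg f_b`, and `D` grows subexponentially only along linear subspaces
of `ℝ ^ r` of codimension at least `s`. For instance `s = r` if `max (D(u), D(-u)) ≥ c exp (δ |u|)`
for some `c, δ > 0`.

Let `(X, Δ)` be a pair, `Δ ≥ 0` (for instance a log canonical pair), which is dominated by
`(X', Δ')`: there is a dominant rational map `X' ⇢ X`, generically finite, given by the homomorphism
`π` of the function fields, such that the pull back of `K_X + Δ` is at most `K_X' + Δ'` over the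
prime divisors of `X'`. For instance let `X` be the quotient of `X'` by a finite group, with the
branch divisor `Δ` and `Δ' = 0`. The map has nothing to do with the maps `f_a`, and `K_X + Δ` is not
assumed to be nef. Then `s ≤ n`, the numerical dimension of `K_X + Δ` is at most `n - s`, and so is
the Kodaira dimension; if the Kodaira dimension is at least `n - s` then the Kodaira dimension and
the numerical dimension of `K_X + Δ` are equal. For `s = n` the numerical dimension of `K_X + Δ` is at
most zero; if `K_X + Δ` is pseudo-effective and the irregularity of `X` is zero then some multiple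
`m (K_X + Δ)`, `m ≥ 1`, has a section `ω ≠ 0`, the Kodaira dimension is zero and so is the numerical
dimension which is defined by the growth of the number of the sections of `m (K_X + Δ) + A`. -/
theorem Pool.Agent.Results.MP_a27c81_ag.CoveredCommuting.result
    {K K' : Type} [Field K] [Algebra ℂ K] [Field K'] [Algebra ℂ K'] {N N' n : ℕ}
    {y : Fin (N + 1) → K} {y' : Fin (N' + 1) → K'} (hy : NormalModel y) (hy' : NormalModel y')
    (hn : Algebra.trdeg ℂ K = n) (hn' : Algebra.trdeg ℂ K' = n) (hn0 : 0 < n)
    {Δ' : Place ℂ K' → ℚ} (hΔ' : Effective y' Δ') (hnef : LogNef y' n Δ') {r s : ℕ} (hs : 0 < s)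
    {φ : (Fin r → ℕ) → (K' →ₐ[ℂ] K')} (hφ : ∀ u v, φ (u + v) = φ u * φ v)
    (hP : (∀ v, SelfPullLe (φ v) y' n Δ') ∨ (Δ' = 0 ∧ Canonical y' n))
    (hrank : SE.CorrRankGe φ y' n s ∨ (s = r ∧ SE.CorrExpGrowth φ y' n))
    {Δ : Place ℂ K → ℚ} (hΔ : Effective y Δ) (π : K →ₐ[ℂ] K')
    (hπ : IM.ImagePullLe π y n Δ y' Δ') :
    s ≤ n ∧ NumDimLt y n Δ (n - s + 1) ∧ ¬ KappaGe y n Δ (n - s + 1) ∧
      (KappaGe y n Δ (n - s) → Abundant y n Δ) ∧
      (s = n → LogPsef y n Δ → IrregularityZero y →
        (∃ m : ℕ, 1 ≤ m ∧ ∃ ω : (Fin n → Derivation ℂ K K) → K, ω ≠ 0 ∧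
          IsSection y n m (m • Δ) ω) ∧
        kodairaDim y n Δ = ((0 : ℕ) : WithBot ℕ) ∧
        ∀ A, Effective y A → Integral y A → numericalDim y n Δ A = ((0 : ℕ) : EReal)) := by
  have hP' : ∀ v, SelfPullLe (φ v) y' n Δ' := by
    rcases hP with h | ⟨rfl, hcan'⟩
    · exact h
    · exact fun v => selfPullLe_canonical hy' hn' hcan' (φ v)
  have hrank' : SE.CorrRankGe φ y' n s := by
    rcases hrank with h | ⟨rfl, h⟩
    · exact h
    · exact SE.corrRank_of_exp h
  obtain ⟨h1, h2'⟩ := SE.semi_main SE.stmSJ SE.stmSG SE.stmSD hy' hn' hn0 hΔ'.2 hnef hs hφ hP'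
    hrank'
  have hle : n - s + 1 ≤ n := by omega
  have h2 := IM.numDimLt_img hy hy' hn hn' π hπ hle h2'
  refine ⟨h1, h2, ?_, fun h => ⟨n - s, h, h2⟩, ?_⟩
  · rintro ⟨m, hm, ω, E, hω, h0, hind⟩
    exact kappa_lt hy hn hle h2 hm hω h0 hind
  · intro h3 hpsef hq
    rw [show n - s + 1 = 1 by omega] at h2
    obtain ⟨m, hm, ω, hω0, hω⟩ := NV.nonvanishing hy hn hn0 hΔ.2 hpsef h2 hq
    exact ⟨⟨m, hm, ω, hω0, hω⟩, abundance_zero hy hn hn0 hΔ h2 hm hω hω0⟩
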