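import Pool.Agent.N110.IM.Main
import Pool.Agent.N110.RK.Stat
import Pool.Agent.N110.JPlateau
import Pool.Agent.N110.Can
import Pool.Agent.N110.NV.Fin
import Pool.Agent.R887.Exc

/-!
Varieties which are dominated by a variety with birational self-maps: the numerical dimension is
bounded by the number of the consecutive greatest dynamical degrees.
-/

set_option autoImplicit false

open FF Pool.Agent.W602.GT Pool.Agent.Y172 Pool.Agent.R887 Pool.Agent.N110

/-- Let `X'` be a normal projective variety of dimension `n ≥ 1`, with generic point `y'`, and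
`Δ' ≥ 0` a `ℚ`-divisor on `X'` (`Δ' = 0`, for instance). Let `S` be a set of birational self-maps `f`
of `X'` of bounded degrees (a single map, for instance), given by the automorphisms `φ = f^*` of the
function field, such that `f^* (K_X' + Δ')` and `(f⁻¹)^* (K_X' + Δ')` are at most `K_X' + Δ'` over the
prime divisors of `X'`, or let `Δ' = 0` and let `X'` have canonical singularities (for instance, let
`X'` be smooth); then there is no condition on the maps. Suppose that the greatest of the joint
dynamical degrees `λ 0, ..., λ n` of `S` (the dynamical degrees of `f`, if `S = {f}`) is not attained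
at `ν + 1` consecutive indices.

Let `X` be any projective variety with canonical singularities which is dominated by `X'`: there is
a dominant rational map `X' ⇢ X`, generically finite, given by the homomorphism `π` of the function
fields. It has nothing to do with the self-maps of `X'`. Then the numerical dimension of `K_X` is
less than `ν`, and so is the Kodaira dimension; if the Kodaira dimension is at least `ν - 1`, then the
Kodaira dimension and the numerical dimension of `K_X` are equal. Let `ν = 1` and let `K_X` be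
pseudo-effective. Then the numerical dimension of `K_X` is zero, and if the irregularity of `X` is
zero then the Kodaira dimension of `X` is zero, and so is the numerical dimension of `K_X` which is
defined by the growth of the number of the sections of `m K_X + A`. -/
theorem Pool.Agent.Results.MP_fa3f7f_ag.DominatedHyperbolic.result
    {K K' : Type} [Field K] [Algebra ℂ K] [Field K'] [Algebra ℂ K'] {N N' n : ℕ}
    {y : Fin (N + 1) → K} {y' : Fin (N' + 1) → K'} (hy : NormalModel y) (hy' : NormalModel y')
    (hn : Algebra.trdeg ℂ K = n) (hn' : Algebra.trdeg ℂ K' = n) (hn0 : 0 < n)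
    {Δ' : Place ℂ K' → ℚ} (hΔ' : Effective y' Δ') {S : Set (K' ≃ₐ[ℂ] K')}
    (hS : (∀ φ ∈ S, PullLe φ y' n Δ' ∧ PullLe φ.symm y' n Δ') ∨ (Δ' = 0 ∧ Canonical y' n))
    {C : ℕ} (hC : ∀ φ ∈ S, mixedDegree φ y' n 1 ≤ C) {ν : ℕ} (hν : ν ≤ n)
    (hdeg : ∀ j, j + ν ≤ n → ∃ a ≤ ν, ∃ p ≤ n,
      jointDegree S y' n (j + a) < jointDegree S y' n p)
    (hcan : Canonical y n) (π : K →ₐ[ℂ] K') :
    NumDimLt y n 0 ν ∧ ¬ KappaGe y n 0 ν ∧ (1 ≤ ν → KappaGe y n 0 (ν - 1) → Abundant y n 0) ∧
      (ν = 1 → LogPsef y n 0 → IrregularityZero y → kodairaDim y n 0 = ((0 : ℕ) : WithBot ℕ) ∧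
        ∀ A, Effective y A → Integral y A → numericalDim y n 0 A = ((0 : ℕ) : EReal)) := by
  have hz : {P : Place ℂ K | IsPrimeDivisor y P ∧ (0 : Place ℂ K → ℚ) P ≠ 0}.Finite :=
    Set.finite_empty.subset (by rintro P ⟨-, h⟩; exact h rfl)
  have hS' : ∀ φ ∈ S, PullLe φ y' n Δ' ∧ PullLe φ.symm y' n Δ' := by
    rcases hS with h | ⟨rfl, hcan'⟩
    · exact h
    · exact fun φ _ => ⟨pullLe_canonical hy' hn' hcan' φ, pullLe_canonical hy' hn' hcan' _⟩
  have key : NumDimLt y' n Δ' ν := by
    by_contra hnum
    obtain ⟨j, hj, h4⟩ := jplateau hy' hn' hΔ'.2 (fun φ hφ => (hS' φ hφ).1)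
      (fun φ hφ => (hS' φ hφ).2) hC hν hnum
    obtain ⟨a, ha, p, hp, hlt⟩ := hdeg j hj
    exact absurd hlt (not_lt.2 (h4 a ha p hp))
  have h1 := IM.numDimLt_can hy hy' hn hn' hcan hΔ'.1 π hν key
  refine ⟨h1, ?_, fun h2 h3 => ⟨ν - 1, h3, ?_⟩, ?_⟩
  · rintro ⟨m, hm, ω, E, hω, h0, hind⟩
    exact kappa_lt hy hn hν h1 hm hω h0 hind
  · rwa [show ν - 1 + 1 = ν by omega]
  · rintro rfl hpsef hq
    obtain ⟨m, hm, ω, hω0, hω⟩ := NV.nonvanishing hy hn hn0 hz hpsef h1 hq
    exact abundance_zero hy hn hn0 ⟨fun _ _ => le_rfl, hz⟩ h1 hm hω hω0
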